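import Pool.Agent.LE.StmtsM
import Pool.Agent.Helper65_Mob.Fvl
import Pool.Agent.Helper11_Mob.Gzb

/-!
# Module PRT: comparison with the free kernel
-/

set_option autoImplicit false

open MeasureTheory ProbabilityTheory Function Filter Matrix

open scoped ENNReal BigOperators Topology NNReal ComplexConjugate

noncomputable section

namespace Pool.Agent.LE.MN.H95

open Pool.Agent.Anderson hiding box mem_box card_box
open Pool.Agent.Loc Pool.Agent.Mob Pool.Agent.Helper54.Bal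
  Pool.Agent.Helper96.EXP Pool.Agent.BED

variable {d : ℕ}

/-- restriction to a finite set -/
def cu (B : Finset (Site d)) (φ : Site d → ℂ) (v : Site d) : ℂ := if v ∈ B then φ v else 0

/-- the boundary term -/
def eb (B : Finset (Site d)) (φ : Site d → ℂ) (v : Site d) : ℂ :=
  lap (cu B φ) v - cu B (lap φ) v

/-- `(Δ - z) g` -/
def LL (z : ℂ) (g : Site d → ℂ) (v : Site d) : ℂ := lap g v - z * g v

theorem lap_sub' (f g : Site d → ℂ) (x : Site d) :
    lap (fun y => f y - g y) x = lap f x - lap g x := by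
  unfold lap
  rw [← Finset.sum_sub_distrib]
  apply Finset.sum_congr rfl
  intro i _
  ring

theorem cu_zero (B : Finset (Site d)) (φ : Site d → ℂ) : ∀ y ∉ B, cu B φ y = 0 := by
  intro y hy
  unfold cu
  rw [if_neg hy]

theorem LL_cu (B : Finset (Site d)) (z : ℂ) (φ : Site d → ℂ) (v : Site d) :
    LL z (cu B φ) v = eb B φ v + cu B (LL z φ) v := by
  unfold LL eb cu
  by_cases h : v ∈ B
  · simp only [if_pos h]; ring
  · simp only [if_neg h]; ring

/-! ### Fourier side -/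

theorem box_nbr {x : Site d} {R : ℕ} : ∀ y ∈ box x R, ∀ i : Fin d,
    y - Pi.single i 1 ∈ box x (R + 1) ∧ y + Pi.single i 1 ∈ box x (R + 1) := by
  intro y hy i
  rw [mem_box] at hy
  rw [mem_box, mem_box]
  have h1 := sd_triangle x y (y - Pi.single i 1)
  have h2 := sd_triangle x y (y + Pi.single i 1)
  have h3 := sd_add_single_le y i
  have h4 := sd_sub_single_le y i
  omega

theorem hat_LL {x : Site d} {R : ℕ} {g : Site d → ℂ} (hg : ∀ y ∉ box x R, g y = 0)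
    (E η : ℝ) (θ : UnitAddTorus (Fin d)) :
    ‖hatS (box x (R + 1)) (LL (zc E η) g) θ‖ = md E η θ * ‖hatS (box x R) g θ‖ := by
  have e1 : hatS (box x (R + 1)) (LL (zc E η) g) θ =
      hatS (box x (R + 1)) (lap g) θ - zc E η * hatS (box x (R + 1)) g θ := by
    unfold hatS
    rw [Finset.mul_sum, ← Finset.sum_sub_distrib]
    apply Finset.sum_congr rfl
    intro y _
    simp only [LL]
    ring
  rw [e1, hat_lap hg box_nbr, hatS_mono (box_mono x (Nat.le_succ R)) hg, ← sub_mul, norm_mul]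
  congr 1
  unfold zc
  rw [norm_sy_sub]

theorem cont_integrable {f : UnitAddTorus (Fin d) → ℝ} (hf : Continuous f) : Integrable f :=
  integrable_of_cont hf

theorem star_eq {x : Site d} {R : ℕ} {g : Site d → ℂ} (hg : ∀ y ∉ box x R, g y = 0)
    {E η : ℝ} (hη : 0 < η) :
    ∫ θ, (md E η θ)⁻¹ * ‖hatS (box x (R + 1)) (LL (zc E η) g) θ‖ ^ 2 =
      ∫ θ, md E η θ * ‖hatS (box x R) g θ‖ ^ 2 := by
  apply integral_congr_ae
  filter_upwards with θ
  rw [hat_LL hg]
  have := md_pos (E := E) hη θ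
  field_simp

theorem dual_le (Λ : Finset (Site d)) (g : Site d → ℂ) {E η : ℝ} (hη : 0 < η) :
    ∫ θ, (md E η θ)⁻¹ * ‖hatS Λ g θ‖ ^ 2 ≤ η⁻¹ * ∑ v ∈ Λ, ‖g v‖ ^ 2 := by
  have c1 := continuous_inv_md (d := d) (E := E) hη
  have c2 := continuous_hatS Λ g
  rw [← parsevalS, ← integral_const_mul]
  apply integral_mono
  · apply integrable_of_cont
    fun_prop
  · apply integrable_of_cont
    fun_prop
  · intro θ
    apply mul_le_mul_of_nonneg_right _ (by positivity)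
    exact inv_anti₀ hη (md_ge hη θ)

theorem l2_le_star (Λ : Finset (Site d)) (g : Site d → ℂ) {E η : ℝ} (hη : 0 < η) :
    ∑ v ∈ Λ, ‖g v‖ ^ 2 ≤ η⁻¹ * ∫ θ, md E η θ * ‖hatS Λ g θ‖ ^ 2 := by
  have c1 := continuous_md (d := d) E η
  have c2 := continuous_hatS Λ g
  rw [← parsevalS, ← integral_const_mul]
  apply integral_mono
  · apply integrable_of_cont
    fun_prop
  · apply integrable_of_cont
    fun_prop
  · intro θ
    simp only
    rw [← mul_assoc]
    have h1 : 1 ≤ η⁻¹ * md E η θ := by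
      rw [inv_mul_eq_div, le_div_iff₀ hη, one_mul]
      exact md_ge hη θ
    have h2 : 0 ≤ ‖hatS Λ g θ‖ ^ 2 := by positivity
    nlinarith

theorem sq3 (a b c : ℂ) : ‖a + b + c‖ ^ 2 ≤ 3 * ‖a‖ ^ 2 + 3 * ‖b‖ ^ 2 + 3 * ‖c‖ ^ 2 := by
  have h1 : ‖a + b + c‖ ≤ ‖a‖ + ‖b‖ + ‖c‖ := norm_add₃_le
  have h2 := norm_nonneg (a + b + c)
  nlinarith [sq_nonneg (‖a‖ - ‖b‖), sq_nonneg (‖a‖ - ‖c‖), sq_nonneg (‖b‖ - ‖c‖)]

theorem sq2 (a b : ℂ) : ‖a + b‖ ^ 2 ≤ 2 * ‖a‖ ^ 2 + 2 * ‖b‖ ^ 2 := by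
  have h1 : ‖a + b‖ ≤ ‖a‖ + ‖b‖ := norm_add_le _ _
  have h2 := norm_nonneg (a + b)
  nlinarith [sq_nonneg (‖a‖ - ‖b‖)]

theorem dual3 (Λ : Finset (Site d)) (f a b c : Site d → ℂ) {E η : ℝ} (hη : 0 < η)
    (h : ∀ v ∈ Λ, f v = a v + b v + c v) :
    ∫ θ, (md E η θ)⁻¹ * ‖hatS Λ f θ‖ ^ 2 ≤
      3 * (∫ θ, (md E η θ)⁻¹ * ‖hatS Λ a θ‖ ^ 2) + 3 * (∫ θ, (md E η θ)⁻¹ * ‖hatS Λ b θ‖ ^ 2) +
        3 * (∫ θ, (md E η θ)⁻¹ * ‖hatS Λ c θ‖ ^ 2) := by
  have c1 := continuous_inv_md (d := d) (E := E) hη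
  have cf := continuous_hatS Λ f
  have ca := continuous_hatS Λ a
  have cb := continuous_hatS Λ b
  have cc := continuous_hatS Λ c
  have ia : Integrable fun θ : UnitAddTorus (Fin d) => 3 * ((md E η θ)⁻¹ * ‖hatS Λ a θ‖ ^ 2) := by
    apply integrable_of_cont
    fun_prop
  have ib : Integrable fun θ : UnitAddTorus (Fin d) => 3 * ((md E η θ)⁻¹ * ‖hatS Λ b θ‖ ^ 2) := by
    apply integrable_of_cont
    fun_prop
  have ic : Integrable fun θ : UnitAddTorus (Fin d) => 3 * ((md E η θ)⁻¹ * ‖hatS Λ c θ‖ ^ 2) := by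
    apply integrable_of_cont
    fun_prop
  have h0 : ∀ θ, hatS Λ f θ = hatS Λ a θ + hatS Λ b θ + hatS Λ c θ := by
    intro θ
    unfold hatS
    rw [← Finset.sum_add_distrib, ← Finset.sum_add_distrib]
    apply Finset.sum_congr rfl
    intro v hv
    rw [h v hv]
    ring
  have iab : Integrable fun θ : UnitAddTorus (Fin d) => 3 * ((md E η θ)⁻¹ * ‖hatS Λ a θ‖ ^ 2) +
      3 * ((md E η θ)⁻¹ * ‖hatS Λ b θ‖ ^ 2) := ia.add ib
  rw [← integral_const_mul, ← integral_const_mul, ← integral_const_mul,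
    ← integral_add ia ib, ← integral_add iab ic]
  apply integral_mono
  · apply integrable_of_cont
    fun_prop
  · exact iab.add ic
  · intro θ
    simp only
    rw [h0 θ]
    have h2 := sq3 (hatS Λ a θ) (hatS Λ b θ) (hatS Λ c θ)
    have h3 := mul_le_mul_of_nonneg_left h2 (inv_pos.2 (md_pos (E := E) hη θ)).le
    have h4 : (md E η θ)⁻¹ * (3 * ‖hatS Λ a θ‖ ^ 2 + 3 * ‖hatS Λ b θ‖ ^ 2 + 3 * ‖hatS Λ c θ‖ ^ 2) =
      3 * ((md E η θ)⁻¹ * ‖hatS Λ a θ‖ ^ 2) + 3 * ((md E η θ)⁻¹ * ‖hatS Λ b θ‖ ^ 2) +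
        3 * ((md E η θ)⁻¹ * ‖hatS Λ c θ‖ ^ 2) := by ring
    linarith

theorem dual_del (Λ : Finset (Site d)) {x : Site d} (hx : x ∈ Λ) (E η : ℝ) :
    ∫ θ, (md E η θ)⁻¹ * ‖hatS Λ (fun v => if v = x then (-1 : ℂ) else 0) θ‖ ^ 2 = kap d E η := by
  unfold kap
  apply integral_congr_ae
  filter_upwards with θ
  have h1 : hatS Λ (fun v => if v = x then (-1 : ℂ) else 0) θ = -ch x θ := by
    unfold hatS
    rw [Finset.sum_eq_single x]
    · simp
    · intro v _ hv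
      simp only [if_neg hv, zero_mul]
    · intro h
      exact absurd hx h
  rw [h1, norm_neg, norm_ch]
  ring

/-! ### the boundary terms -/

theorem eb_le (x : Site d) (R : ℕ) (φ : Site d → ℂ) {T : Finset (Site d)}
    (hT : ∀ w, w ∈ T ↔ sd x w ≤ R + 1 ∧ R ≤ sd x w) {v : Site d} (hv : v ∈ box x (R + 1)) :
    ‖eb (box x R) φ v‖ ≤ ∑ i : Fin d,
      ((if v + Pi.single i 1 ∈ T then ‖φ (v + Pi.single i 1)‖ else 0) +
        (if v - Pi.single i 1 ∈ T then ‖φ (v - Pi.single i 1)‖ else 0)) := by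
  rw [mem_box] at hv
  have hstep : ∀ w : Site d, sd v w ≤ 1 →
      ‖cu (box x R) φ w - cu (box x R) (fun _ => φ w) v‖ ≤
        if w ∈ T then ‖φ w‖ else 0 := by
    intro w hvw
    have h1 := sd_triangle x v w
    have h2 := sd_triangle x w v
    rw [sd_comm w v] at h2
    have hmw : w ∈ box x R ↔ sd x w ≤ R := mem_box
    have hmv : v ∈ box x R ↔ sd x v ≤ R := mem_box
    unfold cu
    by_cases hw : sd x w ≤ R
    · by_cases hv' : sd x v ≤ R
      · rw [if_pos (hmw.2 hw), if_pos (hmv.2 hv'), sub_self, norm_zero]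
        split_ifs <;> positivity
      · have h3 : w ∈ T := (hT w).2 (by omega)
        rw [if_pos (hmw.2 hw), if_neg (fun h => hv' (hmv.1 h)), sub_zero, if_pos h3]
    · by_cases hv' : sd x v ≤ R
      · have h3 : w ∈ T := (hT w).2 (by omega)
        rw [if_neg (fun h => hw (hmw.1 h)), if_pos (hmv.2 hv'), zero_sub, norm_neg, if_pos h3]
      · rw [if_neg (fun h => hw (hmw.1 h)), if_neg (fun h => hv' (hmv.1 h)), sub_zero, norm_zero]
        split_ifs <;> positivity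
  have h0 : eb (box x R) φ v = ∑ i : Fin d,
      ((cu (box x R) φ (v + Pi.single i 1) - cu (box x R) (fun _ => φ (v + Pi.single i 1)) v) +
        (cu (box x R) φ (v - Pi.single i 1) - cu (box x R) (fun _ => φ (v - Pi.single i 1)) v)) := by
    unfold eb
    have h1 : cu (box x R) (lap φ) v = ∑ i : Fin d, (cu (box x R) (fun _ => φ (v + Pi.single i 1)) v +
          cu (box x R) (fun _ => φ (v - Pi.single i 1)) v) := by
      unfold cu
      by_cases hv : v ∈ box x R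
      · simp only [if_pos hv]
        rfl
      · simp only [if_neg hv, add_zero, Finset.sum_const_zero]
    rw [h1]
    unfold lap
    rw [← Finset.sum_sub_distrib]
    apply Finset.sum_congr rfl
    intro i _
    ring
  rw [h0]
  refine (norm_sum_le _ _).trans (Finset.sum_le_sum fun i _ => ?_)
  exact (norm_add_le _ _).trans (add_le_add (hstep _ (sd_add_single_le v i))
    (hstep _ (sd_sub_single_le v i)))

theorem sq_sum_two (a b : Fin d → ℝ) :
    (∑ i, (a i + b i)) ^ 2 ≤ 2 * d * ∑ i, (a i ^ 2 + b i ^ 2) := by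
  have h1 := sq_sum_le_card_mul_sum_sq (s := (Finset.univ : Finset (Fin d)))
    (f := fun i => a i + b i)
  rw [Finset.card_univ, Fintype.card_fin] at h1
  refine h1.trans ?_
  rw [mul_comm (2 : ℝ) (d : ℝ), mul_assoc]
  apply mul_le_mul_of_nonneg_left _ (Nat.cast_nonneg d)
  rw [Finset.mul_sum]
  apply Finset.sum_le_sum
  intro i _
  nlinarith [sq_nonneg (a i - b i)]

theorem eb_sq (x : Site d) (R : ℕ) (φ : Site d → ℂ) :
    ∑ v ∈ box x (R + 1), ‖eb (box x R) φ v‖ ^ 2 ≤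
      4 * d ^ 2 * ∑ w ∈ (box x (R + 1)).filter (fun y => R ≤ sd x y), ‖φ w‖ ^ 2 := by
  obtain ⟨T, hT⟩ : ∃ T, T = (box x (R + 1)).filter (fun y => R ≤ sd x y) := ⟨_, rfl⟩
  rw [← hT]
  have h1 : ∀ v ∈ box x (R + 1), ‖eb (box x R) φ v‖ ^ 2 ≤ 2 * d * ∑ i : Fin d,
      ((if v + Pi.single i 1 ∈ T then ‖φ (v + Pi.single i 1)‖ ^ 2 else 0) +
        (if v - Pi.single i 1 ∈ T then ‖φ (v - Pi.single i 1)‖ ^ 2 else 0)) := by
    intro v hv
    have h2 := eb_le x R φ (T := T) (by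
      intro w
      rw [hT, Finset.mem_filter, mem_box]) hv
    have h3 := pow_le_pow_left₀ (norm_nonneg _) h2 2
    refine h3.trans ((sq_sum_two _ _).trans (le_of_eq ?_))
    congr 1
    apply Finset.sum_congr rfl
    intro i _
    split_ifs <;> ring
  have hsum : ∀ e : Site d, ∑ v ∈ box x (R + 1),
      (if v + e ∈ T then ‖φ (v + e)‖ ^ 2 else 0) ≤ ∑ w ∈ T, ‖φ w‖ ^ 2 := by
    intro e
    rw [← Finset.sum_filter]
    rw [← Finset.sum_image (f := fun w => ‖φ w‖ ^ 2) (g := fun v => v + e)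
      (s := (box x (R + 1)).filter fun v => v + e ∈ T)]
    · apply Finset.sum_le_sum_of_subset_of_nonneg
      · intro w hw
        obtain ⟨v, hv, rfl⟩ := Finset.mem_image.1 hw
        exact (Finset.mem_filter.1 hv).2
      · intro w _ _
        positivity
    · intro a _ b _ hab
      exact add_right_cancel hab
  calc ∑ v ∈ box x (R + 1), ‖eb (box x R) φ v‖ ^ 2 ≤ ∑ v ∈ box x (R + 1), 2 * d * ∑ i : Fin d,
      ((if v + Pi.single i 1 ∈ T then ‖φ (v + Pi.single i 1)‖ ^ 2 else 0) +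
        (if v - Pi.single i 1 ∈ T then ‖φ (v - Pi.single i 1)‖ ^ 2 else 0)) :=
        Finset.sum_le_sum h1
    _ = 2 * d * ∑ i : Fin d, ((∑ v ∈ box x (R + 1),
      (if v + Pi.single i 1 ∈ T then ‖φ (v + Pi.single i 1)‖ ^ 2 else 0)) + ∑ v ∈ box x (R + 1),
        (if v + -Pi.single i 1 ∈ T then ‖φ (v + -Pi.single i 1)‖ ^ 2 else 0)) := by
        rw [← Finset.mul_sum, Finset.sum_comm]
        congr 1
        apply Finset.sum_congr rfl
        intro i _
        rw [Finset.sum_add_distrib]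
        simp only [sub_eq_add_neg]
    _ ≤ 2 * d * ∑ _i : Fin d, ((∑ w ∈ T, ‖φ w‖ ^ 2) + ∑ w ∈ T, ‖φ w‖ ^ 2) := by
        apply mul_le_mul_of_nonneg_left _ (by positivity)
        apply Finset.sum_le_sum
        intro i _
        exact add_le_add (hsum _) (hsum _)
    _ = 4 * d ^ 2 * ∑ w ∈ T, ‖φ w‖ ^ 2 := by
        rw [Finset.sum_const, Finset.card_univ, Fintype.card_fin, nsmul_eq_mul]
        ring

theorem tail_le (x : Site d) (R : ℕ) (φ : Site d → ℂ) {κ η : ℝ} (hκ : 0 ≤ κ)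
    (h : ∀ T : Finset (Site d), ∑ v ∈ T, Real.exp (2 * κ * sd x v) * ‖φ v‖ ^ 2 ≤ 4 / η ^ 2) :
    ∑ w ∈ (box x (R + 1)).filter (fun y => R ≤ sd x y), ‖φ w‖ ^ 2 ≤
      Real.exp (-(2 * κ * R)) * (4 / η ^ 2) := by
  refine le_trans ?_ (mul_le_mul_of_nonneg_left
    (h ((box x (R + 1)).filter (fun y => R ≤ sd x y))) (Real.exp_pos _).le)
  rw [Finset.mul_sum]
  apply Finset.sum_le_sum
  intro w hw
  have h1 := (Finset.mem_filter.1 hw).2
  rw [← mul_assoc, ← Real.exp_add]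
  have h2 : (1 : ℝ) ≤ Real.exp (-(2 * κ * R) + 2 * κ * sd x w) := by
    apply Real.one_le_exp
    have h4 : (R : ℝ) ≤ sd x w := by exact_mod_cast h1
    nlinarith
  have h3 : 0 ≤ ‖φ w‖ ^ 2 := by positivity
  nlinarith

/-! ### the two functions -/

theorem gz_equation (V : Site d → ℝ) (Λ : Finset (Site d)) {z : ℂ} (hz : z.im ≠ 0) {x : Site d}
    (hx : x ∈ Λ) {v : Site d} (hv : v ∈ Λ) :
    lap (fun y => gz V Λ z y x) v + (V v : ℂ) * gz V Λ z v x - z * gz V Λ z v x =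
      -(if v = x then 1 else 0) := by
  have hdet := ((Pool.Agent.Mob.H11.gzb d V Λ x x).2.1 z hz).1
  have h1 := Pool.Agent.Mob.H65.mul_fun V Λ z (fun y => gz V Λ z y x) ⟨v, hv⟩
  have h2 : (fun y => if y ∈ Λ then gz V Λ z y x else 0) = fun y => gz V Λ z y x := by
    funext y
    by_cases hy : y ∈ Λ
    · rw [if_pos hy]
    · rw [if_neg hy]
      unfold gz
      rw [dif_neg fun h => hy h.1]
  rw [h2] at h1
  have h3 : (z • (1 : Matrix Λ Λ ℂ) - HC V Λ).mulVec (fun y : Λ => gz V Λ z y x) ⟨v, hv⟩ =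
      if v = x then 1 else 0 := by
    have h4 : (fun y : Λ => gz V Λ z y x) =
        fun y : Λ => (z • (1 : Matrix Λ Λ ℂ) - HC V Λ)⁻¹ y ⟨x, hx⟩ := by
      funext y
      unfold gz
      rw [dif_pos ⟨y.2, hx⟩]
    rw [h4]
    have h5 := congrFun (congrFun (Matrix.mul_nonsing_inv (z • (1 : Matrix Λ Λ ℂ) - HC V Λ)
      (isUnit_iff_ne_zero.2 hdet)) ⟨v, hv⟩) ⟨x, hx⟩
    rw [Matrix.mul_apply, Matrix.one_apply] at h5
    simp only [Subtype.mk.injEq] at h5
    exact h5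
  rw [h3] at h1
  simp only at h1
  linear_combination h1

theorem exp_sub_one_le {κ : ℝ} (h0 : 0 ≤ κ) (h1 : κ ≤ 1) : Real.exp κ - 1 ≤ 2 * κ := by
  have h := Real.abs_exp_sub_one_le (x := κ) (by rw [abs_of_nonneg h0]; exact h1)
  rw [abs_of_nonneg h0] at h
  exact (le_abs_self _).trans h

theorem core (hDua : DuaStmt) (V : Site d → ℝ) (R : ℕ) (x : Site d) {E η τ : ℝ}
    (hη : 0 < η) (hτ0 : 0 ≤ τ) (hτ : τ ≤ 1 / 2) (u u0 : Site d → ℂ)
    (hu : ∀ v ∈ box x R, lap u v + (V v : ℂ) * u v - zc E η * u v = -(if v = x then 1 else 0))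
    (hu0 : ∀ v, lap u0 v - zc E η * u0 v = -(if v = x then 1 else 0))
    (hop : ∀ v : (box x R) → ℂ, nsq (Matrix.mulVec (XM (Csq (box x R) E η hη) (fun y => V y)) v) ≤
      τ ^ 2 * nsq v) {X : ℝ}
    (hX : ∑ w ∈ (box x (R + 1)).filter (fun y => R ≤ sd x y), ‖u w‖ ^ 2 ≤ X)
    (hX0 : ∑ w ∈ (box x (R + 1)).filter (fun y => R ≤ sd x y), ‖u0 w‖ ^ 2 ≤ X) :
    ∑ v ∈ box x R, ‖u v - u0 v‖ ^ 2 ≤
      η⁻¹ * (36 * τ ^ 2 * kap d E η + 228 * d ^ 2 * (η⁻¹ * X)) := by
  obtain ⟨B, hB⟩ : ∃ B, B = box x R := ⟨_, rfl⟩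
  obtain ⟨B', hB'⟩ : ∃ B', B' = box x (R + 1) := ⟨_, rfl⟩
  obtain ⟨φ, hφ⟩ : ∃ φ : Site d → ℂ, φ = fun v => u v - u0 v := ⟨_, rfl⟩
  obtain ⟨z, hz⟩ : ∃ z, z = zc E η := ⟨_, rfl⟩
  have hBB : B ⊆ B' := by
    rw [hB, hB']
    exact box_mono x (Nat.le_succ R)
  have hxB : x ∈ B := by
    rw [hB, mem_box, sd_self]
    exact Nat.zero_le _
  -- the dual norm of `V w`
  have hVd : ∀ w : Site d → ℂ, (∀ y ∉ B, w y = 0) →
      ∫ θ, (md E η θ)⁻¹ * ‖hatS B' (fun v => -((V v : ℂ) * w v)) θ‖ ^ 2 ≤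
        τ ^ 2 * ∫ θ, md E η θ * ‖hatS B w θ‖ ^ 2 := by
    intro w hw
    have h1 := hDua d B (fun y : B => w y) V E η τ (Csq B E η hη) hη hτ0 (Csq_herm B E η hη)
      (Csq_sq B E η hη) (by rw [hB]; exact hop)
    have h2 : ∀ θ, ‖hatS B' (fun v => -((V v : ℂ) * w v)) θ‖ =
        ‖hatV (fun y : B => (V y : ℂ) * w y) θ‖ := by
      intro θ
      rw [hatS_mono hBB (fun y hy => by rw [hw y hy, mul_zero, neg_zero]), ← norm_neg]
      congr 1
      rw [← hatS_eq_hatV B (fun v => (V v : ℂ) * w v)]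
      unfold hatS
      rw [← Finset.sum_neg_distrib]
      apply Finset.sum_congr rfl
      intro y _
      ring
    have h3 : ∀ θ, ‖hatS B w θ‖ = ‖hatV (fun y : B => w y) θ‖ := by
      intro θ
      rw [hatS_eq_hatV]
    simp only [h2, h3]
    exact h1
  obtain ⟨W, hW⟩ : ∃ W, W = ∫ θ, md E η θ * ‖hatS B (cu B φ) θ‖ ^ 2 := ⟨_, rfl⟩
  obtain ⟨W0, hW0⟩ : ∃ W0, W0 = ∫ θ, md E η θ * ‖hatS B (cu B u0) θ‖ ^ 2 := ⟨_, rfl⟩
  have hsW : ∫ θ, (md E η θ)⁻¹ * ‖hatS B' (LL z (cu B φ)) θ‖ ^ 2 = W := by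
    rw [hW, hB, hB', hz]
    exact star_eq (by rw [← hB]; exact cu_zero B φ) hη
  have hsW0 : ∫ θ, (md E η θ)⁻¹ * ‖hatS B' (LL z (cu B u0)) θ‖ ^ 2 = W0 := by
    rw [hW0, hB, hB', hz]
    exact star_eq (by rw [← hB]; exact cu_zero B u0) hη
  have heb : ∀ (g : Site d → ℂ) (Y : ℝ),
      ∑ w ∈ (box x (R + 1)).filter (fun y => R ≤ sd x y), ‖g w‖ ^ 2 ≤ Y →
      ∫ θ, (md E η θ)⁻¹ * ‖hatS B' (eb B g) θ‖ ^ 2 ≤ η⁻¹ * (4 * d ^ 2 * Y) := by
    intro g Y hY
    refine (dual_le B' (eb B g) hη).trans ?_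
    apply mul_le_mul_of_nonneg_left _ (inv_pos.2 hη).le
    rw [hB, hB']
    exact (eb_sq x R g).trans (mul_le_mul_of_nonneg_left hY (by positivity))
  have hφX : ∑ w ∈ (box x (R + 1)).filter (fun y => R ≤ sd x y), ‖φ w‖ ^ 2 ≤ 4 * X := by
    have h1 : ∀ w, ‖φ w‖ ^ 2 ≤ 2 * ‖u w‖ ^ 2 + 2 * ‖u0 w‖ ^ 2 := by
      intro w
      have h2 := sq2 (u w) (-u0 w)
      rw [norm_neg, ← sub_eq_add_neg] at h2
      rw [hφ]
      exact h2
    refine (Finset.sum_le_sum fun w _ => h1 w).trans ?_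
    rw [Finset.sum_add_distrib, ← Finset.mul_sum, ← Finset.mul_sum]
    linarith
  have he := heb φ _ hφX
  have he0 := heb u0 _ hX0
  -- the equation of `w`
  have hwle : W ≤ 3 * (τ ^ 2 * W) + 3 * (τ ^ 2 * W0) + 3 * (η⁻¹ * (4 * d ^ 2 * (4 * X))) := by
    have h1 := dual3 B' (LL z (cu B φ)) (fun v => -((V v : ℂ) * cu B φ v))
      (fun v => -((V v : ℂ) * cu B u0 v)) (eb B φ) (E := E) hη (by
        intro v _
        rw [LL_cu]
        by_cases hv : v ∈ B
        · have h2 := hu v (by rw [← hB]; exact hv)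
          have h3 := hu0 v
          have h4 : LL z φ v = -((V v : ℂ) * u v) := by
            unfold LL
            rw [hφ, lap_sub', hz]
            linear_combination h2 - h3
          unfold cu
          simp only [if_pos hv]
          rw [h4, hφ]
          ring
        · unfold cu
          simp only [if_neg hv]
          ring)
    rw [hsW] at h1
    have h5 := hVd (cu B φ) (cu_zero B φ)
    have h6 := hVd (cu B u0) (cu_zero B u0)
    rw [← hW] at h5
    rw [← hW0] at h6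
    linarith
  have hw0le : W0 ≤ 3 * kap d E η + 3 * (η⁻¹ * (4 * d ^ 2 * X)) := by
    have h1 := dual3 B' (LL z (cu B u0)) (fun v => if v = x then (-1 : ℂ) else 0)
      (eb B u0) (fun _ => 0) (E := E) hη (by
        intro v _
        rw [LL_cu]
        have h3 := hu0 v
        have h4 : LL z u0 v = -(if v = x then 1 else 0) := by
          unfold LL
          rw [hz]
          exact h3
        by_cases hv : v ∈ B
        · unfold cu
          rw [if_pos hv, h4]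
          split_ifs <;> ring
        · unfold cu
          rw [if_neg hv, if_neg]
          · ring
          · rintro rfl
            exact hv hxB)
    rw [hsW0, dual_del B' (hBB hxB)] at h1
    have h7 : ∫ θ : UnitAddTorus (Fin d), (md E η θ)⁻¹ * ‖hatS B' (fun _ => (0 : ℂ)) θ‖ ^ 2 = 0 := by
      have : ∀ θ : UnitAddTorus (Fin d), (md E η θ)⁻¹ * ‖hatS B' (fun _ => (0 : ℂ)) θ‖ ^ 2 = 0 := by
        intro θ
        unfold hatS
        simp
      simp only [this, integral_zero]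
    rw [h7] at h1
    linarith
  have hWnn : 0 ≤ W := by
    rw [hW]
    apply integral_nonneg
    intro θ
    have := md_pos (E := E) hη θ
    positivity
  have hτ2 : τ ^ 2 ≤ 1 / 4 := by nlinarith
  have hτ2n : 0 ≤ τ ^ 2 := sq_nonneg τ
  have hXnn : 0 ≤ X := le_trans (Finset.sum_nonneg fun _ _ => by positivity) hX
  have hXX : 0 ≤ η⁻¹ * (4 * d ^ 2 * X) := by
    have := inv_pos.2 hη
    positivity
  have hfinal : W ≤ 36 * τ ^ 2 * kap d E η + 228 * d ^ 2 * (η⁻¹ * X) := by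
    have h1 : τ ^ 2 * W ≤ 1 / 4 * W := mul_le_mul_of_nonneg_right hτ2 hWnn
    have h2 : τ ^ 2 * W0 ≤ τ ^ 2 * (3 * kap d E η) + 3 / 4 * (η⁻¹ * (4 * d ^ 2 * X)) := by
      have h3 := mul_le_mul_of_nonneg_left hw0le hτ2n
      have h4 : τ ^ 2 * (η⁻¹ * (4 * d ^ 2 * X)) ≤ 1 / 4 * (η⁻¹ * (4 * d ^ 2 * X)) :=
        mul_le_mul_of_nonneg_right hτ2 hXX
      nlinarith
    nlinarith
  have hl2 := l2_le_star B (cu B φ) (E := E) hη
  rw [← hW] at hl2
  have hsum : ∑ v ∈ box x R, ‖u v - u0 v‖ ^ 2 = ∑ v ∈ B, ‖cu B φ v‖ ^ 2 := by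
    rw [← hB]
    apply Finset.sum_congr rfl
    intro v hv
    unfold cu
    rw [if_pos hv, hφ]
  rw [hsum]
  exact hl2.trans (mul_le_mul_of_nonneg_left hfinal (inv_pos.2 hη).le)

theorem prt (hDua : DuaStmt) (hCtg : CtgStmt) (hFrp : FrpStmt) (hFrq : FrqStmt) : PrtStmt := by
  intro d hd
  have hd1 : (1 : ℝ) ≤ d := by exact_mod_cast hd
  refine ⟨36 + 912 * d ^ 2, by nlinarith, ?_⟩
  intro V N R x E η τ hη hη1 hτ0 hτ hbox hop
  obtain ⟨z, hz⟩ : ∃ z, z = zc E η := ⟨_, rfl⟩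
  have hzim : z.im ≠ 0 := by
    rw [hz]
    unfold zc
    simp [hη.ne']
  have hxN : x ∈ box (0 : Site d) N := hbox (by rw [mem_box, sd_self]; exact Nat.zero_le _)
  have hBN : ∀ v ∈ box x R, v ∈ box (0 : Site d) N := fun v hv =>
    hbox (box_mono x (Nat.le_succ R) hv)
  obtain ⟨u, hu⟩ : ∃ u : Site d → ℂ, u = fun y => gz V (box 0 N) z y x := ⟨_, rfl⟩
  obtain ⟨u0, hu0⟩ : ∃ u0 : Site d → ℂ, u0 = fun y => -fk z (y - x) := ⟨_, rfl⟩
  have hequ : ∀ v ∈ box (0 : Site d) N, lap u v + (V v : ℂ) * u v - z * u v =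
      -(if v = x then 1 else 0) := by
    intro v hv
    rw [hu]
    exact gz_equation V (box 0 N) hzim hxN hv
  have hfk := (hFrq d E η hη).1
  rw [← hz] at hfk
  have hequ0 : ∀ v, lap u0 v - z * u0 v = -(if v = x then 1 else 0) := by
    intro v
    have h1 := hfk (v - x)
    have h2 : lap u0 v = -lap (fk z) (v - x) := by
      rw [hu0]
      unfold lap
      rw [← Finset.sum_neg_distrib]
      apply Finset.sum_congr rfl
      intro i _
      have e1 : v + Pi.single i 1 - x = v - x + Pi.single i 1 := by abel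
      have e2 : v - Pi.single i 1 - x = v - x - Pi.single i 1 := by abel
      simp only [e1, e2]
      ring
    have h3 : u0 v = -fk z (v - x) := by rw [hu0]
    have h4 : (v - x = 0) ↔ (v = x) := sub_eq_zero
    rw [h2, h3]
    simp only [h4] at h1
    linear_combination -h1
  obtain ⟨κ, hκ⟩ : ∃ κ : ℝ, κ = η / (8 * d) := ⟨_, rfl⟩
  have hκ0 : 0 ≤ κ := by rw [hκ]; positivity
  have hκ1 : κ ≤ 1 := by
    rw [hκ, div_le_one (by positivity)]
    nlinarith
  have hκη : 4 * d * (Real.exp κ - 1) ≤ η := by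
    have h1 := exp_sub_one_le hκ0 hκ1
    have h2 : 4 * d * (Real.exp κ - 1) ≤ 4 * d * (2 * κ) :=
      mul_le_mul_of_nonneg_left h1 (by positivity)
    refine h2.trans (le_of_eq ?_)
    rw [hκ]
    have : (d : ℝ) ≠ 0 := by positivity
    field_simp
    ring
  -- Combes-Thomas for `u`
  have hout : ∀ v, v ∉ ((box (0 : Site d) N : Finset (Site d)) : Set (Site d)) → u v = 0 := by
    intro v hv
    rw [hu]
    simp only
    unfold gz
    rw [dif_neg fun h => hv (Finset.mem_coe.2 h.1)]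
  have hsu : Summable fun v => ‖u v‖ ^ 2 := by
    apply summable_of_ne_finset_zero (s := box (0 : Site d) N)
    intro v hv
    rw [hout v (fun h => hv (Finset.mem_coe.1 h)), norm_zero]
    norm_num
  have hct := hCtg d V ((box (0 : Site d) N : Finset (Site d)) : Set (Site d)) E η κ
    (∑ v ∈ box (0 : Site d) N, |V v|) u x hη hκ0 hκη (by
      intro v hv
      exact Finset.single_le_sum (f := fun v => |V v|) (fun _ _ => abs_nonneg _)
        (Finset.mem_coe.1 hv)) hsu hout (by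
      intro v hv
      rw [← hz, hequ v (Finset.mem_coe.1 hv), norm_neg]
      split_ifs <;> simp)
  have hfs := (hFrp d E η hη).1
  rw [← hz] at hfs
  have hsu0 : Summable fun v => ‖u0 v‖ ^ 2 := by
    have h1 : (fun v => ‖u0 v‖ ^ 2) = (fun v : Site d => ‖fk z v‖ ^ 2) ∘ (Equiv.subRight x) := by
      funext v
      rw [hu0]
      simp only [norm_neg, Function.comp, Equiv.subRight_apply]
    rw [h1]
    exact (Equiv.summable_iff (Equiv.subRight x)).2 hfs
  have hct0 := hCtg d (fun _ => 0) Set.univ E η κ 0 u0 x hη hκ0 hκη (by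
      intro v _
      simp) hsu0 (by
      intro v hv
      exact absurd (Set.mem_univ v) hv) (by
      intro v _
      rw [← hz]
      have h1 := hequ0 v
      have h2 : lap u0 v + ((0 : ℝ) : ℂ) * u0 v - z * u0 v = lap u0 v - z * u0 v := by
        rw [Complex.ofReal_zero]
        ring
      rw [h2, h1, norm_neg]
      split_ifs <;> simp)
  have hX := tail_le x R u hκ0 hct
  have hX0 := tail_le x R u0 hκ0 hct0
  have hc := core hDua V R x hη hτ0 hτ u u0 (by
    intro v hv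
    rw [← hz]
    exact hequ v (hBN v hv)) (by
    intro v
    rw [← hz]
    exact hequ0 v) hop hX hX0
  have e1 : ∀ v, u v - u0 v = gz V (box 0 N) (zc E η) v x + fk (zc E η) (v - x) := by
    intro v
    rw [hu, hu0, hz]
    ring
  simp only [e1] at hc
  refine hc.trans ?_
  apply mul_le_mul_of_nonneg_left _ (inv_pos.2 hη).le
  have e2 : Real.exp (-(2 * κ * R)) = Real.exp (-(η * R / (4 * d))) := by
    congr 1
    rw [hκ]
    have : (d : ℝ) ≠ 0 := by positivity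
    field_simp
    ring
  rw [e2]
  have e3 : 228 * (d : ℝ) ^ 2 * (η⁻¹ * (Real.exp (-(η * R / (4 * d))) * (4 / η ^ 2))) =
      912 * d ^ 2 * Real.exp (-(η * R / (4 * d))) / η ^ 3 := by
    field_simp
    ring
  rw [e3]
  have hkap : 0 < kap d E η := kap_pos E hη
  have h5 : 36 * τ ^ 2 * kap d E η ≤ (36 + 912 * (d : ℝ) ^ 2) * τ ^ 2 * kap d E η := by
    have h6 : 0 ≤ 912 * (d : ℝ) ^ 2 * (τ ^ 2 * kap d E η) := by positivity
    nlinarith
  have h7 : 912 * (d : ℝ) ^ 2 * Real.exp (-(η * R / (4 * d))) / η ^ 3 ≤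
      (36 + 912 * (d : ℝ) ^ 2) * Real.exp (-(η * R / (4 * d))) / η ^ 3 := by
    apply div_le_div_of_nonneg_right _ (by positivity)
    apply mul_le_mul_of_nonneg_right _ (Real.exp_pos _).le
    linarith
  linarith

end Pool.Agent.LE.MN.H95
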